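import Pool.Agent.helper29.PQ.Spec
import Pool.Agent.helper95.TG.WT4

namespace Pool.Agent.helper29.PQ

open Finset Pool.Agent.helper35.LinPrimes Pool.Agent.helper74.TG

/-- pq:C5 -/
theorem C5 (h1 : C1_stmt) (h4 : C4_stmt) : C5_stmt := by
  classical
  intro m c hm hc κ δ hκ hδ
  obtain ⟨N₀, hN₀⟩ := fw_close m c hm hc
  have hlog : Filter.Tendsto (fun U : ℕ => Real.log (U : ℝ)) Filter.atTop Filter.atTop :=
    Real.tendsto_log_atTop.comp tendsto_natCast_atTop_atTop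
  have e1 : ∀ᶠ U : ℕ in Filter.atTop, 8 / (κ * δ) ≤ Real.log U ^ 27 :=
    ((Filter.tendsto_pow_atTop (by norm_num : (27 : ℕ) ≠ 0)).comp hlog).eventually_ge_atTop _
  have e2 : ∀ᶠ U : ℕ in Filter.atTop, Real.log U ^ 176 ≤ U := by
    have h := (Real.isLittleO_pow_log_id_atTop (n := 176)).bound (one_pos : (0 : ℝ) < 1)
    have h' := tendsto_natCast_atTop_atTop.eventually h
    filter_upwards [h', Filter.eventually_ge_atTop 1] with U hU hU1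
    have hU1' : (1 : ℝ) ≤ U := by exact_mod_cast hU1
    simp only [id, one_mul, Real.norm_eq_abs] at hU
    rw [abs_of_nonneg (by linarith : (0 : ℝ) ≤ (U : ℝ))] at hU
    exact (le_abs_self _).trans hU
  have e3 : ∀ᶠ U : ℕ in Filter.atTop, (1 : ℝ) ≤ Real.log U := hlog.eventually_ge_atTop 1
  obtain ⟨U₀, hU₀⟩ := Filter.eventually_atTop.1
    (e1.and (e2.and (e3.and ((Filter.eventually_ge_atTop N₀).and
      (Filter.eventually_ge_atTop 3)))))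
  refine ⟨U₀, ?_⟩
  intro U hU η N₁ T hT hκT hη
  obtain ⟨f1, f2, f3, f4, f5⟩ := hU₀ U hU
  set L : ℝ := Real.log U with hL
  set Q : ℕ := ⌊L ^ 44⌋₊ with hQ
  have hUpos : (0 : ℝ) < U := by
    have : (3 : ℝ) ≤ U := by exact_mod_cast f5
    linarith
  have hLpos : 0 < L := by linarith
  have hTpos : (0 : ℝ) < #T := lt_of_lt_of_le (by positivity) hκT
  have hQ1 : 1 ≤ Q := by
    rw [hQ]
    apply Nat.le_floor
    simpa using one_le_pow₀ f3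
  have hQ4 : Q ^ 4 ≤ U ^ 2 := by
    have h5 : (Q : ℝ) ≤ L ^ 44 := Nat.floor_le (by positivity)
    have h6 : (Q : ℝ) ^ 4 ≤ (U : ℝ) ^ 2 := by
      calc (Q : ℝ) ^ 4 ≤ (L ^ 44) ^ 4 := by gcongr
        _ = L ^ 176 := by rw [← pow_mul]
        _ ≤ U := f2
        _ ≤ (U : ℝ) ^ 2 := by
          have : (1 : ℝ) ≤ U := by
            have : (3 : ℝ) ≤ U := by exact_mod_cast f5
            linarith
          nlinarith
    exact_mod_cast h6
  set F : ℕ → ℂ := fun x => (fw m c x : ℂ) - gm m c Q x with hF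
  have g1 := h1 U N₁ F (U / L ^ 14) T (by positivity) (fun α => hN₀ U f4 α U le_rfl) hT
  have g4 := h4 m c Q U N₁ T hm hQ1 (by omega) hQ4 hT
  have g4' : ∑ N ∈ Ioc N₁ U, ‖∑ a ∈ T, (gm m c Q (N - a) - 1)‖ ^ 2 ≤
      5 * U * (η * (#T : ℝ) ^ 2) := by
    refine g4.trans ?_
    gcongr
  set B : Finset ℕ := {N ∈ Ioc N₁ U | ∑ a ∈ T, fw m c (N - a) < #T / 2} with hB
  have key : ∀ N ∈ B, (#T : ℝ) ^ 2 / 4 ≤ 2 * ‖∑ a ∈ T, F (N - a)‖ ^ 2 +
      2 * ‖∑ a ∈ T, (gm m c Q (N - a) - 1)‖ ^ 2 := by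
    intro N hN
    rw [hB, mem_filter] at hN
    have h5 : ((∑ a ∈ T, fw m c (N - a) - #T : ℝ) : ℂ) =
        ∑ a ∈ T, F (N - a) + ∑ a ∈ T, (gm m c Q (N - a) - 1) := by
      rw [← Finset.sum_add_distrib]
      have : ∀ a ∈ T, F (N - a) + (gm m c Q (N - a) - 1) = (fw m c (N - a) : ℂ) - 1 := by
        intro a _
        rw [hF]
        ring
      rw [Finset.sum_congr rfl this, Finset.sum_sub_distrib]
      push_cast
      simp
    have h6 : |∑ a ∈ T, fw m c (N - a) - (#T : ℝ)| ≤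
        ‖∑ a ∈ T, F (N - a)‖ + ‖∑ a ∈ T, (gm m c Q (N - a) - 1)‖ := by
      rw [← Real.norm_eq_abs, ← Complex.norm_real, h5]
      exact norm_add_le _ _
    have h7 : (#T : ℝ) / 2 ≤ |∑ a ∈ T, fw m c (N - a) - (#T : ℝ)| := by
      rw [abs_sub_comm]
      refine le_trans ?_ (le_abs_self _)
      linarith [hN.2]
    have h8 := h7.trans h6
    have h9 : ((#T : ℝ) / 2) ^ 2 ≤
        (‖∑ a ∈ T, F (N - a)‖ + ‖∑ a ∈ T, (gm m c Q (N - a) - 1)‖) ^ 2 :=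
      pow_le_pow_left₀ (by positivity) h8 2
    nlinarith [sq_nonneg (‖∑ a ∈ T, F (N - a)‖ - ‖∑ a ∈ T, (gm m c Q (N - a) - 1)‖)]
  have hBsub : B ⊆ Ioc N₁ U := filter_subset _ _
  have s1 : (#B : ℝ) * ((#T : ℝ) ^ 2 / 4) ≤
      2 * ((U / L ^ 14) ^ 2 * #T) + 2 * (5 * U * (η * (#T : ℝ) ^ 2)) := by
    calc (#B : ℝ) * ((#T : ℝ) ^ 2 / 4) = ∑ N ∈ B, (#T : ℝ) ^ 2 / 4 := by
          rw [Finset.sum_const, nsmul_eq_mul]
      _ ≤ ∑ N ∈ B, (2 * ‖∑ a ∈ T, F (N - a)‖ ^ 2 +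
          2 * ‖∑ a ∈ T, (gm m c Q (N - a) - 1)‖ ^ 2) := Finset.sum_le_sum key
      _ ≤ ∑ N ∈ Ioc N₁ U, (2 * ‖∑ a ∈ T, F (N - a)‖ ^ 2 +
          2 * ‖∑ a ∈ T, (gm m c Q (N - a) - 1)‖ ^ 2) :=
        Finset.sum_le_sum_of_subset_of_nonneg hBsub (fun _ _ _ => by positivity)
      _ = 2 * ∑ N ∈ Ioc N₁ U, ‖∑ a ∈ T, F (N - a)‖ ^ 2 +
          2 * ∑ N ∈ Ioc N₁ U, ‖∑ a ∈ T, (gm m c Q (N - a) - 1)‖ ^ 2 := by
        rw [Finset.sum_add_distrib, Finset.mul_sum, Finset.mul_sum]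
      _ ≤ _ := by linarith
  have s2 : (#B : ℝ) ≤ 8 * (U / L ^ 14) ^ 2 / #T + 40 * η * U := by
    have h5 : (#B : ℝ) * ((#T : ℝ) ^ 2 / 4) ≤
        (8 * (U / L ^ 14) ^ 2 / #T + 40 * η * U) * ((#T : ℝ) ^ 2 / 4) := by
      refine s1.trans (le_of_eq ?_)
      field_simp
      ring
    exact le_of_mul_le_mul_right h5 (by positivity)
  have s3 : 8 * (U / L ^ 14) ^ 2 / #T ≤ δ * U := by
    have h5 : 8 * (U / L ^ 14) ^ 2 / #T ≤ 8 * (U / L ^ 14) ^ 2 / (κ * U / L) := by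
      gcongr
    refine h5.trans ?_
    have h6 : 8 * (U / L ^ 14) ^ 2 / (κ * U / L) = 8 / κ / L ^ 27 * U := by
      field_simp
    rw [h6]
    have h7 : 8 / κ / L ^ 27 ≤ δ := by
      rw [div_le_iff₀ (by positivity)]
      rw [div_le_iff₀ (by positivity)] at f1 ⊢
      nlinarith
    gcongr
  calc (#B : ℝ) ≤ 8 * (U / L ^ 14) ^ 2 / #T + 40 * η * U := s2
    _ ≤ δ * U + 40 * η * U := by linarith
    _ = (40 * η + δ) * U := by ring

end Pool.Agent.helper29.PQ
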